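import Pool.Agent.W135.RG.Red

set_option autoImplicit false

open Finset TensorProduct

namespace Pool.Agent.W135.RG

open Pool.Agent.W348.RG NumberField

attribute [local instance 100] LieRing.ofAssociativeRing

theorem J_mul {m : ℕ} {A B : Mt m} (hA : A ∈ J m) (hB : B ∈ J m) : A * B ∈ J m := by
  intro i j hij
  rw [Matrix.mul_apply]
  apply Finset.sum_eq_zero
  intro k _
  by_cases hk : k ≤ i
  · rw [hA i k hk, zero_mul]
  · rw [hB k j (hij.trans (le_of_lt (not_le.mp hk))), mul_zero]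

/-- strictly upper triangular matrices as a Lie subalgebra -/
def JL (m : ℕ) : LieSubalgebra ℚ (Mt m) :=
  { J m with
    lie_mem' := by
      intro A B hA hB
      rw [LieRing.of_associative_ring_bracket]
      exact (J m).sub_mem (J_mul hA hB) (J_mul hB hA) }

theorem malcev_le (h0 : S_exp) {G : Type} [Group G] (r : UniRep G) (x : Mt r.m)
    (hx : x ∈ malcev r) : x ∈ J r.m := by
  have h : malcev r ≤ JL r.m := by
    unfold malcev
    rw [LieSubalgebra.lieSpan_le]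
    rintro _ ⟨g, rfl⟩
    have h1 : r.ρ g - 1 ∈ J r.m := by
      intro i j hij
      rw [Matrix.sub_apply, r.uni g i j hij, Matrix.one_apply]
      simp
    exact ((h0 r.m).2.1 (r.ρ g) h1).2
  exact h hx

theorem Rp_of_int {p : ℕ} (hp : p.Prime) {D : ℕ} (hD : ¬ p ∣ D) {q : ℚ} {z : ℤ}
    (h : (D : ℚ) * q = z) : q ∈ Rp p := by
  have hD0 : (D : ℚ) ≠ 0 := by
    intro h0
    have : D = 0 := by exact_mod_cast h0
    apply hD; rw [this]; exact dvd_zero p
  have hq : q = (z : ℚ) / ((D : ℤ) : ℚ) := by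
    rw [eq_div_iff]
    · push_cast; rw [mul_comm]; exact h
    · exact_mod_cast hD0
  show q.den.Coprime p
  have h1 : (q.den : ℤ) ∣ (D : ℤ) := by
    rw [hq, ← Rat.divInt_eq_div]; exact Rat.den_dvd z D
  have h2 : q.den ∣ D := by exact_mod_cast h1
  exact Nat.Coprime.coprime_dvd_left h2 ((Nat.Prime.coprime_iff_not_dvd hp).mpr hD).symm

theorem loc (h0 : S_exp) (h4 : S_nrm) {G : Type} [Group G] (r : UniRep G) {d : ℕ}
    (e : Module.Basis (Fin d) ℚ (malcev r)) (D0 D1 : ℕ) (K : Type) [Field K] [NumberField K]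
    (p : ℕ) [hpf : Fact p.Prime] (hp0 : ¬ p ∣ D0) (hp1 : ¬ p ∣ D1) (hBd : Bd r.m < p)
    (φ : 𝓞 K →+* ZMod p)
    (hstr : ∀ i j k, ∃ z : ℤ, (D0 : ℚ) * e.repr ⁅e i, e j⁆ k = z)
    (hG : ∀ g : G, ∃ h : lg (r.ρ g) ∈ malcev r, ∀ i, ∃ z : ℤ,
      (D0 : ℚ) * e.repr ⟨lg (r.ρ g), h⟩ i = z)
    (c : ℕ) (ℓ : Fin c → (malcev r →ₗ[ℚ] K)) (a : Fin c → Fin c → (malcev r →ₗ[ℚ] K))
    (hdata : IsData ℓ a) (hℓ : ∀ i k, IsIntegral ℤ ((D1 : K) * ℓ i (e k)))
    (ha : ∀ i j k, IsIntegral ℤ ((D1 : K) * a i j (e k))) :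
    ∃ N : Subgroup G, N.Normal ∧ N.index ≠ 0 ∧ N.index ≤ p ^ c ∧ ∀ g ∈ N,
      ∀ (h : lg (r.ρ g) ∈ malcev r) (i : Fin c) (α : 𝓞 K),
        (α : K) = ((D0 * D1 : ℕ) : K) * ℓ i ⟨lg (r.ρ g), h⟩ → φ α = 0 := by
  obtain ⟨O, ψ, hO1, hO2⟩ := exists_red K p φ
  have hp := hpf.out
  -- rationals with denominator prime to p
  have hq : ∀ q ∈ Rp p, (q : K) ∈ O := by
    intro q hq
    have hq' : q.den.Coprime p := hq
    apply hO1 _ q.den
    · intro h
      exact (Nat.Prime.coprime_iff_not_dvd hp).mp hq'.symm h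
    · have : ((q.den : ℕ) : K) * (q : K) = ((q.num : ℤ) : K) := by
        have h1 : (q.den : ℚ) * q = q.num := by
          rw [mul_comm]; exact Rat.mul_den_eq_num q
        exact_mod_cast congrArg (fun t : ℚ => (t : K)) h1
      rw [this]
      exact isIntegral_algebraMap (R := ℤ) (A := K) (x := q.num)
  let ML : AddSubgroup (malcev r) :=
    { carrier := {x | ∀ k, e.repr x k ∈ Rp p}
      add_mem' := by
        intro x y hx hy k
        rw [map_add, Finsupp.add_apply]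
        exact (Rp p).add_mem (hx k) (hy k)
      zero_mem' := by
        intro k
        rw [map_zero, Finsupp.zero_apply]
        exact (Rp p).zero_mem
      neg_mem' := by
        intro x hx k
        rw [map_neg, Finsupp.neg_apply]
        exact (Rp p).neg_mem (hx k) }
  have hfO : ∀ f : malcev r →ₗ[ℚ] K, (∀ k, IsIntegral ℤ ((D1 : K) * f (e k))) →
      ∀ x ∈ ML, f x ∈ O := by
    intro f hf x hx
    rw [← e.sum_repr x, map_sum]
    apply O.sum_mem
    intro k _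
    rw [map_smul, Rat.smul_def]
    exact O.mul_mem (hq _ (hx k)) (hO1 _ D1 hp1 (hf k))
  have hℓO : ∀ i, ∀ x ∈ ML, ℓ i x ∈ O := fun i => hfO (ℓ i) (hℓ i)
  have haO : ∀ i j, ∀ x ∈ ML, a i j x ∈ O := fun i j => hfO (a i j) (ha i j)
  let F : ML →+ (Fin c → ZMod p) :=
    { toFun := fun x i => ψ ⟨ℓ i x, hℓO i x x.2⟩
      map_zero' := by
        funext i
        have : (⟨ℓ i ((0 : ML) : malcev r), hℓO i _ (0 : ML).2⟩ : O) = 0 := by
          apply Subtype.ext
          simp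
        rw [this, map_zero]
        rfl
      map_add' := by
        intro x y
        funext i
        have : (⟨ℓ i ((x + y : ML) : malcev r), hℓO i _ (x + y : ML).2⟩ : O) =
            ⟨ℓ i x, hℓO i x x.2⟩ + ⟨ℓ i y, hℓO i y y.2⟩ := by
          apply Subtype.ext
          simp
        rw [this, map_add]
        rfl }
  let IL : AddSubgroup (malcev r) := F.ker.map ML.subtype
  have hIL : ∀ x, x ∈ IL ↔ ∃ hx : x ∈ ML, ∀ i, ψ ⟨ℓ i x, hℓO i x hx⟩ = 0 := by
    intro x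
    constructor
    · rintro ⟨y, hy, rfl⟩
      refine ⟨y.2, fun i => ?_⟩
      have : F y = 0 := hy
      exact congrFun this i
    · rintro ⟨hx, h⟩
      refine ⟨⟨x, hx⟩, ?_, rfl⟩
      show F ⟨x, hx⟩ = 0
      funext i
      exact h i
  have hILle : IL ≤ ML := by
    intro x hx
    exact ((hIL x).mp hx).1
  have hidx : IL.relIndex ML = Nat.card F.range := by
    rw [← AddSubgroup.index_ker]
    unfold AddSubgroup.relIndex
    congr 1
    ext x
    rw [AddSubgroup.mem_addSubgroupOf]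
    constructor
    · intro hx
      obtain ⟨hx', h⟩ := (hIL _).mp hx
      show F x = 0
      funext i
      exact h i
    · intro hx
      exact ⟨x, hx, rfl⟩
  have hML_br : ∀ x ∈ ML, ∀ y ∈ ML, ⁅x, y⁆ ∈ ML := by
    intro x hx y hy k
    rw [← e.sum_repr x, ← e.sum_repr y, sum_lie]
    simp_rw [lie_sum, smul_lie, lie_smul]
    simp only [map_sum, map_smul, Finsupp.coe_finsetSum, Finset.sum_apply, Finsupp.smul_apply,
      smul_eq_mul]
    apply (Rp p).sum_mem
    intro i _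
    apply (Rp p).sum_mem
    intro j _
    obtain ⟨z, hz⟩ := hstr i j k
    exact (Rp p).mul_mem (hx i) ((Rp p).mul_mem (hy j) (Rp_of_int hp hp0 hz))
  have hIL_br : ∀ x ∈ ML, ∀ y ∈ IL, ⁅x, y⁆ ∈ IL := by
    intro x hx y hy
    obtain ⟨hyM, hy0⟩ := (hIL y).mp hy
    have h1 : ⁅y, x⁆ ∈ IL := by
      rw [hIL]
      refine ⟨hML_br y hyM x hx, fun i => ?_⟩
      have h2 : (⟨ℓ i ⁅y, x⁆, hℓO i _ (hML_br y hyM x hx)⟩ : O) =
          ∑ j, (⟨a i j x, haO i j x hx⟩ : O) * ⟨ℓ j y, hℓO j y hyM⟩ := by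
        apply Subtype.ext
        push_cast
        exact hdata i y x
      rw [h2, map_sum]
      apply Finset.sum_eq_zero
      intro j _
      rw [map_mul, hy0 j, mul_zero]
    rw [← lie_skew]
    exact IL.neg_mem h1
  -- transfer to matrices
  let ι : malcev r →+ Mt r.m := ((malcev r).incl : malcev r →ₗ[ℚ] Mt r.m).toAddMonoidHom
  have hι : ∀ x : malcev r, ι x = (x : Mt r.m) := fun x => rfl
  have hιinj : Function.Injective ι := fun x y h => Subtype.ext h
  have hbr : ∀ x y : malcev r, ι x * ι y - ι y * ι x = ι ⁅x, y⁆ := by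
    intro x y
    rw [hι, hι, hι, LieSubalgebra.coe_bracket, LieRing.of_associative_ring_bracket]
  have hsm : ∀ (q : ℚ) (x : malcev r), q • ι x = ι (q • x) := by
    intro q x
    rfl
  have hLie : IsLie (Rp p) (ML.map ι) := by
    refine ⟨?_, ?_, ?_⟩
    · rintro q hq' _ ⟨x, hx, rfl⟩
      refine ⟨q • x, ?_, (hsm q x).symm⟩
      intro k
      rw [map_smul, Finsupp.smul_apply, smul_eq_mul]
      exact (Rp p).mul_mem hq' (hx k)
    · rintro _ ⟨x, hx, rfl⟩
      exact malcev_le h0 r _ x.2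
    · rintro _ ⟨x, hx, rfl⟩ _ ⟨y, hy, rfl⟩
      rw [hbr]
      exact ⟨_, hML_br x hx y hy, rfl⟩
  have hIdl : IsIdl (Rp p) (ML.map ι) (IL.map ι) := by
    refine ⟨?_, ?_, ?_⟩
    · rintro q hq' _ ⟨x, hx, rfl⟩
      refine ⟨q • x, ?_, (hsm q x).symm⟩
      obtain ⟨hxM, hx0⟩ := (hIL x).mp hx
      have hqM : q • x ∈ ML := by
        intro k
        rw [map_smul, Finsupp.smul_apply, smul_eq_mul]
        exact (Rp p).mul_mem hq' (hxM k)
      show q • x ∈ IL
      rw [hIL]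
      refine ⟨hqM, fun i => ?_⟩
      have h2 : (⟨ℓ i (q • x), hℓO i _ hqM⟩ : O) = (⟨(q : K), hq q hq'⟩ : O) *
          ⟨ℓ i x, hℓO i x hxM⟩ := by
        apply Subtype.ext
        push_cast
        rw [map_smul, Rat.smul_def]
      rw [h2, map_mul, hx0 i, mul_zero]
    · exact AddSubgroup.map_mono hILle
    · rintro _ ⟨x, hx, rfl⟩ _ ⟨y, hy, rfl⟩
      rw [hbr]
      exact ⟨_, hIL_br x hx y hy, rfl⟩
  have hlgM : ∀ g, lg (r.ρ g) ∈ ML.map ι := by
    intro g
    obtain ⟨h, hz⟩ := hG g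
    refine ⟨⟨lg (r.ρ g), h⟩, ?_, rfl⟩
    intro k
    obtain ⟨z, hz⟩ := hz k
    exact Rp_of_int hp hp0 hz
  have hrel : (IL.map ι).relIndex (ML.map ι) = Nat.card F.range := by
    rw [AddSubgroup.relIndex_map_map_of_injective _ _ hιinj, hidx]
  have hne : Nat.card F.range ≠ 0 := Nat.card_pos.ne'
  have hle : Nat.card F.range ≤ p ^ c := by
    refine (Nat.card_le_card_of_injective (Subtype.val : F.range → (Fin c → ZMod p))
      Subtype.val_injective).trans (le_of_eq ?_)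
    rw [Nat.card_eq_fintype_card, Fintype.card_fun, ZMod.card, Fintype.card_fin]
  obtain ⟨N, hN1, hN2, hN3, hN4⟩ := h4 G r p hp hBd (ML.map ι) (IL.map ι) hLie hIdl hlgM
    (by rw [hrel]; exact hne)
  refine ⟨N, hN1, hN3, hN4.trans (by rw [hrel]; exact hle), ?_⟩
  intro g hg h i α hα
  obtain ⟨y, hy, hyg⟩ := (hN2 g).mp hg
  have hy' : y = ⟨lg (r.ρ g), h⟩ := Subtype.ext hyg
  obtain ⟨hyM, hy0⟩ := (hIL y).mp hy
  obtain ⟨hαO, hψα⟩ := hO2 α
  rw [← hψα]
  have h2 : (⟨(α : K), hαO⟩ : O) = ((D0 * D1 : ℕ) : O) * ⟨ℓ i y, hℓO i y hyM⟩ := by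
    apply Subtype.ext
    change (α : K) = _
    rw [hα, ← hy']
    push_cast
    rfl
  rw [h2, map_mul, hy0 i, mul_zero]

end Pool.Agent.W135.RG
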