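import Pool.Agent.W348.RG.Stms

set_option autoImplicit false

open Finset TensorProduct

namespace Pool.Agent.W135.RG

open Pool.Agent.W348.RG NumberField

/-- extension of a prime of degree one to a local subring -/
theorem exists_red (K : Type) [Field K] [NumberField K] (p : ℕ) [Fact p.Prime]
    (φ : 𝓞 K →+* ZMod p) : ∃ (O : Subring K) (ψ : O →+* ZMod p),
      (∀ (z : K) (n : ℕ), ¬ p ∣ n → IsIntegral ℤ ((n : K) * z) → z ∈ O) ∧
      (∀ α : 𝓞 K, ∃ h : (α : K) ∈ O, ψ ⟨α, h⟩ = φ α) := by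
  have : (RingHom.ker φ).IsPrime := RingHom.ker_isPrime φ
  set S : Submonoid (𝓞 K) := (RingHom.ker φ).primeCompl with hSdef
  have hmem : ∀ s : 𝓞 K, s ∈ S ↔ φ s ≠ 0 := by
    intro s
    rw [hSdef, Ideal.mem_primeCompl_iff, RingHom.mem_ker]
  have hS : S ≤ nonZeroDivisors (𝓞 K) := by
    intro s hs
    rw [mem_nonZeroDivisors_iff_ne_zero]
    rintro rfl
    exact (hmem 0).mp hs (map_zero φ)
  let B := Localization.subalgebra.ofField K S hS
  have hg : ∀ y : S, IsUnit (φ y) := fun y => isUnit_iff_ne_zero.mpr ((hmem y).mp y.2)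
  let ψ : B →+* ZMod p := IsLocalization.lift (M := S) (g := φ) hg
  refine ⟨B.toSubring, ψ, ?_, ?_⟩
  · intro z n hn hint
    have hφn : φ (n : 𝓞 K) ≠ 0 := by
      rw [map_natCast]
      intro h
      exact hn ((ZMod.natCast_eq_zero_iff n p).mp h)
    have hn0 : (n : K) ≠ 0 := by
      intro h
      have : n = 0 := by exact_mod_cast h
      apply hn; rw [this]; exact dvd_zero p
    refine ⟨⟨(n : K) * z, hint⟩, (n : 𝓞 K), (hmem _).mpr hφn, ?_⟩
    have h1 : algebraMap (𝓞 K) K (n : 𝓞 K) = (n : K) := map_natCast _ _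
    have h2 : algebraMap (𝓞 K) K ⟨(n : K) * z, hint⟩ = (n : K) * z := rfl
    rw [h1, h2]
    field_simp
  · intro α
    have h : (α : K) ∈ B.toSubring := B.algebraMap_mem α
    refine ⟨h, ?_⟩
    have h1 : ψ (algebraMap (𝓞 K) B α) = φ α := IsLocalization.lift_eq hg α
    exact h1

end Pool.Agent.W135.RG
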