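import Pool.Agent.W135.RG.Loc

set_option autoImplicit false

open Finset TensorProduct

namespace Pool.Agent.W135.RG

open Pool.Agent.W348.RG NumberField

attribute [local instance 100] LieRing.ofAssociativeRing

theorem common_den (K : Type) [Field K] [NumberField K] {T : Type} [Finite T] (f : T → K) :
    ∃ D : ℕ, 0 < D ∧ ∀ t, IsIntegral ℤ ((D : K) * f t) := by
  obtain ⟨y, hy, hint⟩ := exists_integral_multiples (A := ℤ) (K := ℚ)
    (Set.finite_range f).toFinset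
  refine ⟨y.natAbs, Int.natAbs_pos.mpr hy, fun t => ?_⟩
  have h1 := hint (f t) (by simp)
  rw [zsmul_eq_mul] at h1
  have key : ((y.natAbs : ℕ) : K) = (((y.natAbs : ℕ) : ℤ) : K) := (Int.cast_natCast _).symm
  rcases Int.natAbs_eq y with h | h
  · rw [key, ← h]
    exact h1
  · have h2 : ((y.natAbs : ℕ) : ℤ) = -y := by omega
    rw [key, h2, Int.cast_neg, neg_mul]
    exact h1.neg

theorem norm_bound (K : Type) [Field K] [NumberField K] (α : 𝓞 K) (H : ℝ)
    (h : ∀ σ : K →ₐ[ℚ] ℂ, ‖σ (α : K)‖ ≤ H) :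
    ((Algebra.norm ℤ α).natAbs : ℝ) ≤ H ^ (Fintype.card (K →ₐ[ℚ] ℂ)) := by
  have h1 : algebraMap ℚ ℂ (Algebra.norm ℚ (α : K)) = ∏ σ : K →ₐ[ℚ] ℂ, σ (α : K) :=
    Algebra.norm_eq_prod_embeddings ℚ ℂ (α : K)
  have h2 : ((Algebra.norm ℤ α).natAbs : ℝ) = ‖algebraMap ℚ ℂ (Algebra.norm ℚ (α : K))‖ := by
    rw [← Algebra.coe_norm_int α]
    simp [Nat.cast_natAbs]
  rw [h2, h1, norm_prod]
  calc ∏ σ : K →ₐ[ℚ] ℂ, ‖σ (α : K)‖ ≤ ∏ _σ : K →ₐ[ℚ] ℂ, H :=
        Finset.prod_le_prod (fun _ _ => norm_nonneg _) (fun σ _ => h σ)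
    _ = _ := by rw [Finset.prod_const, Finset.card_univ]

theorem lg_one {m : ℕ} : lg (1 : Mt m) = 0 := by
  unfold lg
  apply Finset.sum_eq_zero
  intro k _
  rw [sub_self]
  rcases Nat.eq_zero_or_pos k with h | h
  · subst h; simp
  · rw [zero_pow h.ne', smul_zero]

theorem upg (h0 : S_exp) (h1 : S_nf) (h2 : S_nt) (h3 : S_lat) (h4 : S_nrm) : S_upg := by
  intro G _ r S hS c hJ
  obtain ⟨d, e, C0, D0, hD0, hstr, hball⟩ := h3 G r S hS
  obtain ⟨K, _, _, R, ℓ, a, hdata, hinj⟩ := h1 (malcev r) c hJ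
  obtain ⟨Da, hDa, hDaint⟩ := common_den K (fun t : Fin R × Fin c × Fin d =>
    ℓ t.1 t.2.1 (e t.2.2))
  obtain ⟨Db, hDb, hDbint⟩ := common_den K (fun t : Fin R × Fin c × Fin c × Fin d =>
    a t.1 t.2.1 t.2.2.1 (e t.2.2.2))
  set D1 := Da * Db with hD1
  have hD1pos : 0 < D1 := Nat.mul_pos hDa hDb
  have hℓint : ∀ s i k, IsIntegral ℤ ((D1 : K) * ℓ s i (e k)) := by
    intro s i k
    have := (isIntegral_algebraMap (R := ℤ) (A := K) (x := (Db : ℤ))).mul (hDaint (s, i, k))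
    rw [hD1]
    push_cast
    have e1 : (Da : K) * Db * ℓ s i (e k) = algebraMap ℤ K (Db : ℤ) * ((Da : K) * ℓ s i (e k)) := by
      simp; ring
    rw [e1]
    exact this
  have haint : ∀ s i j k, IsIntegral ℤ ((D1 : K) * a s i j (e k)) := by
    intro s i j k
    have := (isIntegral_algebraMap (R := ℤ) (A := K) (x := (Da : ℤ))).mul (hDbint (s, i, j, k))
    rw [hD1]
    push_cast
    have e1 : (Da : K) * Db * a s i j (e k) =
        algebraMap ℤ K (Da : ℤ) * ((Db : K) * a s i j (e k)) := by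
      simp; ring
    rw [e1]
    exact this
  set D := D0 * D1 * (Bd r.m).factorial with hD
  have hDpos : 0 < D := Nat.mul_pos (Nat.mul_pos hD0 hD1pos) (Nat.factorial_pos _)
  obtain ⟨Cn, hCn, hnt⟩ := h2 K D hDpos
  -- bound for the embeddings
  obtain ⟨B, hB⟩ := (Set.finite_range (fun t : (K →ₐ[ℚ] ℂ) × Fin R × Fin c × Fin d =>
    ‖t.1 ((D1 : K) * ℓ t.2.1 t.2.2.1 (e t.2.2.2))‖)).bddAbove
  have hB' : ∀ (σ : K →ₐ[ℚ] ℂ) s i k, ‖σ ((D1 : K) * ℓ s i (e k))‖ ≤ B := by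
    intro σ s i k
    exact hB ⟨(σ, s, i, k), rfl⟩
  set C1 : ℝ := d * (D0 * C0) * |B| + 1 with hC1
  have hC1pos : 1 ≤ C1 := by
    rw [hC1]
    have : 0 ≤ (d : ℝ) * (D0 * C0) * |B| := by positivity
    linarith
  set N0 := Fintype.card (K →ₐ[ℚ] ℂ) with hN0
  set C2 : ℝ := 1 + N0 * Real.log C1 + N0 * C0 with hC2
  have hlogC1 : 0 ≤ Real.log C1 := Real.log_nonneg hC1pos
  have hC2pos : 0 < C2 := by
    rw [hC2]
    have : 0 ≤ (N0 : ℝ) * Real.log C1 := by positivity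
    have : 0 ≤ (N0 : ℝ) * C0 := by positivity
    linarith
  -- every element is in a ball
  have hgen : ∀ g : G, ∃ n, g ∈ ball (S : Set G) n := by
    intro g
    have hg : g ∈ Subgroup.closure (S : Set G) := by rw [hS]; trivial
    have hg' : g ∈ Submonoid.closure ((S : Set G) ∪ (S : Set G)⁻¹) := by
      rw [← Subgroup.closure_toSubmonoid]; exact hg
    obtain ⟨l, hl, hlp⟩ := Submonoid.exists_list_of_mem_closure hg'
    exact ⟨l.length, l, le_rfl, fun x hx => (hl x hx).imp id Set.mem_inv.mp, hlp⟩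
  have hG : ∀ g : G, ∃ h : lg (r.ρ g) ∈ malcev r, ∀ i, ∃ z : ℤ,
      (D0 : ℚ) * e.repr ⟨lg (r.ρ g), h⟩ i = z := by
    intro g
    obtain ⟨n, hn⟩ := hgen g
    obtain ⟨h, hh⟩ := hball n g hn
    exact ⟨h, fun i => (hh i).2⟩
  refine ⟨(Cn * C2) ^ c, by positivity, ?_⟩
  intro n g hg hg1
  obtain ⟨hx, hcoord⟩ := hball n g hg
  set x : malcev r := ⟨lg (r.ρ g), hx⟩ with hxdef
  have hx0 : x ≠ 0 := by
    intro h
    have h5 : lg (r.ρ g) = 0 := congrArg Subtype.val h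
    have hu : ∀ g', r.ρ g' - 1 ∈ J r.m := by
      intro g' i j hij
      rw [Matrix.sub_apply, r.uni g' i j hij, Matrix.one_apply]
      simp
    have h6 := ((h0 r.m).2.1 (r.ρ g) (hu g)).1
    have h7 := ((h0 r.m).2.1 (r.ρ 1) (hu 1)).1
    apply hg1
    apply r.inj
    rw [← h6, ← h7, h5, map_one, lg_one]
  obtain ⟨s, i, hsi⟩ : ∃ s i, ℓ s i x ≠ 0 := by
    by_contra hcon
    push Not at hcon
    exact hx0 (hinj x hcon)
  choose z hz using fun k => (hcoord k).2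
  -- the algebraic integer
  let A : Fin d → 𝓞 K := fun k => ⟨(D1 : K) * ℓ s i (e k), hℓint s i k⟩
  set α : 𝓞 K := ∑ k, (z k : 𝓞 K) * A k with hα
  have hαK : (α : K) = ((D0 * D1 : ℕ) : K) * ℓ s i x := by
    have e1 : ℓ s i x = ∑ k, ((e.repr x k : ℚ) : K) * ℓ s i (e k) := by
      conv_lhs => rw [← e.sum_repr x, map_sum]
      apply Finset.sum_congr rfl
      intro k _
      rw [map_smul, Rat.smul_def]
    rw [e1, hα]
    change algebraMap (𝓞 K) K _ = _
    rw [map_sum, Finset.mul_sum]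
    apply Finset.sum_congr rfl
    intro k _
    have e2 : ((z k : ℤ) : K) = (D0 : K) * ((e.repr x k : ℚ) : K) := by
      have := congrArg (fun t : ℚ => (t : K)) (hz k)
      push_cast at this
      exact this.symm
    rw [map_mul, map_intCast, e2]
    have e4 : algebraMap (𝓞 K) K (A k) = (D1 : K) * ℓ s i (e k) := rfl
    rw [e4]
    push_cast
    ring
  have hα0 : α ≠ 0 := by
    intro h
    have : (α : K) = 0 := by rw [h]; rfl
    rw [hαK] at this
    rcases mul_eq_zero.mp this with h | h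
    · have : D0 * D1 = 0 := by exact_mod_cast h
      have := Nat.mul_pos hD0 hD1pos
      omega
    · exact hsi h
  obtain ⟨p, hp, hpD, hpC, φ, hφ⟩ := hnt α hα0
  have : Fact p.Prime := ⟨hp⟩
  have hp0 : ¬ p ∣ D0 := fun h => hpD ((h.mul_right _).mul_right _)
  have hp1 : ¬ p ∣ D1 := fun h => hpD ((h.mul_left _).mul_right _)
  have hpB : Bd r.m < p := by
    by_contra h
    exact hpD (((Nat.Prime.dvd_factorial hp).mpr (not_lt.mp h)).mul_left _)
  obtain ⟨N, hN1, hN2, hN3, hN4⟩ := loc h0 h4 r e D0 D1 K p hp0 hp1 hpB φ hstr hG c (ℓ s) (a s)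
    (hdata s) (fun i k => hℓint s i k) (fun i j k => haint s i j k)
  refine ⟨N, hN1, hN2, ?_, ?_⟩
  · intro hgN
    exact hφ (hN4 g hgN hx i α hαK)
  -- the norm
  have hn1 : (1 : ℝ) ≤ (n : ℝ) + 1 := by
    have : (0 : ℝ) ≤ n := Nat.cast_nonneg n
    linarith
  have hσ : ∀ σ : K →ₐ[ℚ] ℂ, ‖σ (α : K)‖ ≤ C1 * ((n : ℝ) + 1) ^ C0 := by
    intro σ
    have e1 : (α : K) = ∑ k, ((z k : ℤ) : K) * ((D1 : K) * ℓ s i (e k)) := by
      rw [hα]
      change algebraMap (𝓞 K) K _ = _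
      rw [map_sum]
      apply Finset.sum_congr rfl
      intro k _
      rw [map_mul, map_intCast]
      rfl
    rw [e1, map_sum]
    refine (norm_sum_le _ _).trans ?_
    have e2 : ∀ k, ‖σ (((z k : ℤ) : K) * ((D1 : K) * ℓ s i (e k)))‖ ≤
        (D0 * C0) * ((n : ℝ) + 1) ^ C0 * |B| := by
      intro k
      rw [map_mul, norm_mul, map_intCast, Complex.norm_intCast]
      have e3 : |((z k : ℤ) : ℝ)| ≤ (D0 * C0) * ((n : ℝ) + 1) ^ C0 := by
        have e4 : |((z k : ℤ) : ℚ)| ≤ (D0 * C0) * ((n : ℚ) + 1) ^ C0 := by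
          rw [← hz k, abs_mul, Nat.abs_cast, mul_assoc]
          exact mul_le_mul_of_nonneg_left (hcoord k).1 (Nat.cast_nonneg _)
        exact_mod_cast (Rat.cast_le (K := ℝ)).mpr e4
      exact mul_le_mul e3 ((hB' σ s i k).trans (le_abs_self B)) (norm_nonneg _) (by positivity)
    refine (Finset.sum_le_sum (fun k _ => e2 k)).trans ?_
    rw [Finset.sum_const, Finset.card_univ, Fintype.card_fin, nsmul_eq_mul]
    have e5 : (d : ℝ) * ((D0 * C0) * ((n : ℝ) + 1) ^ C0 * |B|) =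
      ((d : ℝ) * (D0 * C0) * |B|) * ((n : ℝ) + 1) ^ C0 := by ring
    rw [e5]
    apply mul_le_mul_of_nonneg_right _ (by positivity)
    rw [hC1]
    linarith
  have hnorm := norm_bound K α _ hσ
  have hlogn : 0 ≤ Real.log ((n : ℝ) + 1) := Real.log_nonneg hn1
  have hlog : Real.log ((Algebra.norm ℤ α).natAbs : ℝ) ≤
      N0 * (Real.log C1 + C0 * Real.log ((n : ℝ) + 1)) := by
    rcases Nat.eq_zero_or_pos (Algebra.norm ℤ α).natAbs with h | h
    · rw [h, Nat.cast_zero, Real.log_zero]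
      positivity
    · refine (Real.log_le_log (by exact_mod_cast h) hnorm).trans (le_of_eq ?_)
      rw [Real.log_pow, Real.log_mul (by linarith) (by positivity), Real.log_pow]
  have hp2 : (p : ℝ) ≤ Cn * C2 * (1 + Real.log ((n : ℝ) + 1)) := by
    refine hpC.trans ?_
    rw [mul_assoc]
    apply mul_le_mul_of_nonneg_left _ hCn.le
    rw [hC2]
    have e1 : (0 : ℝ) ≤ N0 * Real.log C1 * Real.log ((n : ℝ) + 1) := by positivity
    have e2 : (0 : ℝ) ≤ (N0 : ℝ) * C0 := by positivity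
    nlinarith
  calc (N.index : ℝ) ≤ ((p ^ c : ℕ) : ℝ) := by exact_mod_cast hN3
    _ = (p : ℝ) ^ c := by push_cast; rfl
    _ ≤ (Cn * C2 * (1 + Real.log ((n : ℝ) + 1))) ^ c :=
      pow_le_pow_left₀ (Nat.cast_nonneg p) hp2 c
    _ = _ := by rw [mul_pow]

end Pool.Agent.W135.RG
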